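import Pool.Agent.Helper98.EX.Stmts

set_option autoImplicit false

/-!
# Module MIR : mirror symmetry
-/

namespace Pool.Agent.Helper98.EX

open Finset

variable {N : ℕ}

theorem mir_occ (η : Cfg N) {x : ℕ} (hx : x < N) : occ (mir η) x = !(occ η (N - 1 - x)) := by
  rw [occ_lt hx]; rfl

theorem mir_mir (η : Cfg N) : mir (mir η) = η := by
  apply cfg_ext
  intro i hi
  rw [mir_occ _ hi, mir_occ _ (by omega : N - 1 - i < N), Bool.not_not]
  congr 1
  omega

theorem mir_ht (η : Cfg N) : ∀ d x : ℕ, x + d = N → ht (mir η) x + ht η 0 = d + ht η (N - x) := by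
  intro d
  induction d with
  | zero =>
    intro x hx
    have e : x = N := by omega
    subst e
    rw [ht_ge le_rfl]
    simp
  | succ d ih =>
    intro x hx
    have h1 := ih (x + 1) (by omega)
    have h2 := ht_succ (mir η) (by omega : x < N)
    have h3 := ht_succ η (by omega : N - (x + 1) < N)
    have e : N - (x + 1) + 1 = N - x := by omega
    rw [e] at h3
    rw [mir_occ η (by omega : x < N)] at h2
    have e2 : N - 1 - x = N - (x + 1) := by omega
    rw [e2] at h2
    by_cases ho : occ η (N - (x + 1)) = true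
    · rw [ho] at h2 h3
      simp only [Bool.not_true, Bool.false_eq_true, if_false, if_true] at h2 h3
      omega
    · have ho' : occ η (N - (x + 1)) = false := by simpa using ho
      rw [ho'] at h2 h3
      simp only [Bool.not_false, Bool.false_eq_true, if_false, if_true] at h2 h3
      omega

theorem mir_swp (η : Cfg N) {x : ℕ} (h1 : 1 ≤ x) (h2 : x < N) :
    swp (N - x) (mir η) = mir (swp x η) := by
  apply cfg_ext
  intro i hi
  rw [occ_swp (by omega) (by omega), mir_occ (swp x η) hi, occ_swp h1 h2]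
  by_cases ha : i = N - x
  · have hb : ¬ (N - 1 - i = x) := by omega
    have hc : N - 1 - i + 1 = x := by omega
    rw [if_pos ha, if_neg hb, if_pos hc, mir_occ _ (by omega : N - x - 1 < N)]
    congr 2
    omega
  · rw [if_neg ha]
    by_cases hb : i + 1 = N - x
    · have hc : N - 1 - i = x := by omega
      rw [if_pos hb, if_pos hc, mir_occ _ (by omega : N - x < N)]
      congr 2
      omega
    · have hc : ¬ (N - 1 - i = x) := by omega
      have hd : ¬ (N - 1 - i + 1 = x) := by omega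
      rw [if_neg hb, if_neg hc, if_neg hd, mir_occ _ hi]

theorem mir_Rm (η : Cfg N) {x : ℕ} (h1 : 1 ≤ x) (h2 : x < N) :
    Rm (N - x) (mir η) = mir (Rm x η) := by
  have e1 : occ (mir η) (N - x - 1) = !(occ η x) := by
    rw [mir_occ _ (by omega)]
    congr 2
    omega
  have e2 : occ (mir η) (N - x) = !(occ η (x - 1)) := by
    rw [mir_occ _ (by omega)]
    congr 2
    omega
  unfold Rm
  rw [e1, e2]
  by_cases h : occ η (x - 1) = true ∧ occ η x = false
  · rw [if_pos ⟨by omega, by omega, by rw [h.2]; rfl, by rw [h.1]; rfl⟩,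
      if_pos ⟨h1, h2, h.1, h.2⟩]
    exact mir_swp η h1 h2
  · rw [if_neg, if_neg]
    · rintro ⟨-, -, a, b⟩
      exact h ⟨a, b⟩
    · rintro ⟨-, -, a, b⟩
      apply h
      constructor
      · simpa using b
      · simpa using a

theorem mir_Lm (η : Cfg N) {x : ℕ} (h1 : 1 ≤ x) (h2 : x < N) :
    Lm (N - x) (mir η) = mir (Lm x η) := by
  have e1 : occ (mir η) (N - x - 1) = !(occ η x) := by
    rw [mir_occ _ (by omega)]
    congr 2
    omega
  have e2 : occ (mir η) (N - x) = !(occ η (x - 1)) := by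
    rw [mir_occ _ (by omega)]
    congr 2
    omega
  unfold Lm
  rw [e1, e2]
  by_cases h : occ η (x - 1) = false ∧ occ η x = true
  · rw [if_pos ⟨by omega, by omega, by rw [h.2]; rfl, by rw [h.1]; rfl⟩,
      if_pos ⟨h1, h2, h.1, h.2⟩]
    exact mir_swp η h1 h2
  · rw [if_neg, if_neg]
    · rintro ⟨-, -, a, b⟩
      exact h ⟨a, b⟩
    · rintro ⟨-, -, a, b⟩
      apply h
      constructor
      · simpa using b
      · simpa using a

theorem mir_memS (S : Finset ℕ) {x : ℕ} (h1 : 1 ≤ x) (h2 : x < N) :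
    N - x ∈ mirS N S ↔ x ∈ S := by
  unfold mirS full
  constructor
  · intro h
    rw [Finset.mem_image] at h
    obtain ⟨y, hy, hxy⟩ := h
    rw [Finset.mem_inter, Finset.mem_Ico] at hy
    have : y = x := by omega
    rw [← this]
    exact hy.1
  · intro h
    rw [Finset.mem_image]
    exact ⟨x, Finset.mem_inter.2 ⟨h, Finset.mem_Ico.2 ⟨h1, h2⟩⟩, rfl⟩

theorem mir_RmS (S : Finset ℕ) (η : Cfg N) {x : ℕ} (h1 : 1 ≤ x) (h2 : x < N) :
    RmS (mirS N S) (N - x) (mir η) = mir (RmS S x η) := by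
  unfold RmS
  by_cases h : x ∈ S
  · rw [if_pos h, if_pos ((mir_memS S h1 h2).2 h), mir_Rm η h1 h2]
  · rw [if_neg h, if_neg (fun h' => h ((mir_memS S h1 h2).1 h'))]

theorem mir_LmS (S : Finset ℕ) (η : Cfg N) {x : ℕ} (h1 : 1 ≤ x) (h2 : x < N) :
    LmS (mirS N S) (N - x) (mir η) = mir (LmS S x η) := by
  unfold LmS
  by_cases h : x ∈ S
  · rw [if_pos h, if_pos ((mir_memS S h1 h2).2 h), mir_Lm η h1 h2]
  · rw [if_neg h, if_neg (fun h' => h ((mir_memS S h1 h2).1 h'))]

theorem mir_stp (r l : ℕ → ℝ) (S : Finset ℕ) (f : Cfg N → ℝ) (η : Cfg N) :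
    stp r l S f η = stp (mirr N r) (mirr N l) (mirS N S) (fun ζ => f (mir ζ)) (mir η) := by
  unfold stp
  simp only
  rw [mir_mir]
  congr 2
  unfold full
  refine Finset.sum_bij' (fun x _ => N - x) (fun x _ => N - x) ?_ ?_ ?_ ?_ ?_
  · intro x hx
    rw [Finset.mem_Ico] at hx ⊢
    omega
  · intro x hx
    rw [Finset.mem_Ico] at hx ⊢
    omega
  · intro x hx
    rw [Finset.mem_Ico] at hx
    omega
  · intro x hx
    rw [Finset.mem_Ico] at hx
    omega
  · intro x hx
    rw [Finset.mem_Ico] at hx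
    have e : N - (N - x) = x := by omega
    simp only [mirr]
    rw [mir_RmS S η hx.1 hx.2, mir_LmS S η hx.1 hx.2, mir_mir, mir_mir, e]

theorem mir_ev (r l : ℕ → ℝ) (m : ℕ) : ∀ (σ : ℕ → Finset ℕ) (f : Cfg N → ℝ) (η : Cfg N),
    ev r l σ m f η =
      ev (mirr N r) (mirr N l) (fun i => mirS N (σ i)) m (fun ζ => f (mir ζ)) (mir η) := by
  induction m with
  | zero =>
    intro σ f η
    change f η = f (mir (mir η))
    rw [mir_mir]
  | succ m ih =>
    intro σ f η
    rw [ev_succ, ev_succ, mir_stp]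
    congr 1
    funext ζ
    rw [ih, mir_mir]

theorem st_MIR : ST_MIR := by
  intro N
  refine ⟨mir_mir, fun η x hx => mir_occ η hx, fun η x hx => ?_, fun r l σ m f η => mir_ev r l m σ f η⟩
  exact mir_ht η (N - x) x (by omega)

end Pool.Agent.Helper98.EX
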