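import Pool.Agent.Helper98.EX.Stmts

set_option autoImplicit false

/-!
# Module STATTAIL : tail of the stationary law
-/

namespace Pool.Agent.Helper98.EX

open Finset

variable {N : ℕ}

theorem stattail_sorted {k : ℕ} {q1 q2 : ℕ} (hq1 : q1 ≤ N) (η ξ : Cfg N)
    (h1 : ht η 0 = k) (h2 : ht ξ 0 = k) (h : hle 0 η ξ) (hη : η ∈ (sorted 0 q1 q2 N : Set (Cfg N))) :
    ξ ∈ (sorted 0 q1 q2 N : Set (Cfg N)) := by
  obtain ⟨a, b⟩ := hη
  -- heights of `η` at `x ≤ q1`
  have e1 : ∀ x, x ≤ q1 → ht η x = k := by
    intro x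
    induction x with
    | zero => intro _; exact h1
    | succ x ih =>
      intro hx
      have i1 := ih (by omega)
      have i2 := ht_succ η (by omega : x < N)
      rw [a x (Nat.zero_le _) (by omega)] at i2
      simp only [Bool.false_eq_true, if_false, zero_add] at i2
      rw [← i2, i1]
  have e2 : ∀ d, d ≤ N → q2 ≤ N - d → ht η (N - d) = d := by
    intro d
    induction d with
    | zero => intro _ _; exact ht_ge (by omega)
    | succ d ih =>
      intro hd hq
      have i1 := ih (by omega) (by omega)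
      have i2 := ht_succ η (by omega : N - (d + 1) < N)
      have e : N - (d + 1) + 1 = N - d := by omega
      rw [b (N - (d + 1)) hq (by omega), e, i1] at i2
      rw [i2]
      simp only [if_true]
      omega
  constructor
  · intro i _ hi
    rw [not_occ_iff_ht ξ (by omega)]
    have i1 := h i
    have i2 := h (i + 1)
    rw [e1 i (by omega)] at i1
    rw [e1 (i + 1) (by omega)] at i2
    have i3 := ht_anti ξ (Nat.zero_le i)
    have i4 := ht_anti ξ (Nat.zero_le (i + 1))
    omega
  · intro i hi hN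
    rw [occ_iff_ht ξ hN]
    have i1 := h i
    have i2 := h (i + 1)
    have i3 := e2 (N - i) (by omega) (by omega)
    have i4 := e2 (N - (i + 1)) (by omega) (by omega)
    have e3 : N - (N - i) = i := by omega
    have e4 : N - (N - (i + 1)) = i + 1 := by omega
    rw [e3] at i3
    rw [e4] at i4
    have i5 := ht_le ξ i
    have i6 := ht_le ξ (i + 1)
    omega

theorem stattail_sub {r l : ℕ → ℝ} (hA : Adm N r l) {k : ℕ} (S : Finset ℕ) (T : Set (Cfg N))
    (n : ℕ) {a : ℝ} (ha : 0 ≤ a) (hn : ∀ η : Cfg N, ht η 0 = k → nohit r l S T n η ≤ a) (m : ℕ) :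
    ∀ η : Cfg N, ht η 0 = k → nohit r l S T (m + n) η ≤ a * nohit r l S T m η := by
  induction m with
  | zero =>
    intro η hη
    rw [Nat.zero_add]
    change nohit r l S T n η ≤ a * (1 - ind T η)
    by_cases hT : η ∈ T
    · have h0 : nohit r l S T n η = 0 := by
        cases n with
        | zero => change 1 - ind T η = 0; rw [ind_of_mem hT, sub_self]
        | succ n =>
          change (1 - ind T η) * stp r l S (nohit r l S T n) η = 0
          rw [ind_of_mem hT, sub_self, zero_mul]
      rw [h0, ind_of_mem hT, sub_self, mul_zero]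
    · rw [ind_of_not_mem hT, sub_zero, mul_one]
      exact hn η hη
  | succ m ih =>
    intro η hη
    have e : m + 1 + n = (m + n) + 1 := by ring
    rw [e]
    change (1 - ind T η) * stp r l S (nohit r l S T (m + n)) η ≤
      a * ((1 - ind T η) * stp r l S (nohit r l S T m) η)
    have h1 : stp r l S (nohit r l S T (m + n)) η ≤ stp r l S (fun ξ => a * nohit r l S T m ξ) η := by
      apply stp_couple hA (ih η hη)
      · intro x _ _; exact ih _ ((ht_RmS_zero _ η x).trans hη)
      · intro x _ _; exact ih _ ((ht_LmS_zero _ η x).trans hη)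
    rw [stp_smul] at h1
    have h2 : 0 ≤ 1 - ind T η := by linarith [ind_le_one T η]
    have h3 := mul_le_mul_of_nonneg_left h1 h2
    linarith

theorem stattail_le_one {r l : ℕ → ℝ} (hA : Adm N r l) (S : Finset ℕ) (T : Set (Cfg N)) (m : ℕ) :
    ∀ η : Cfg N, nohit r l S T m η ≤ 1 ∧ 0 ≤ nohit r l S T m η := by
  induction m with
  | zero =>
    intro η
    change 1 - ind T η ≤ 1 ∧ 0 ≤ 1 - ind T η
    exact ⟨by linarith [ind_nonneg T η], by linarith [ind_le_one T η]⟩
  | succ m ih =>
    intro η
    change (1 - ind T η) * stp r l S (nohit r l S T m) η ≤ 1 ∧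
      0 ≤ (1 - ind T η) * stp r l S (nohit r l S T m) η
    have h1 : stp r l S (nohit r l S T m) η ≤ 1 := by
      have := stp_mono hA (f := nohit r l S T m) (g := fun _ => 1) (S := S) (fun ξ => (ih ξ).1) η
      rwa [stp_const] at this
    have h2 : 0 ≤ stp r l S (nohit r l S T m) η := by
      have := stp_mono hA (f := fun _ => 0) (g := nohit r l S T m) (S := S) (fun ξ => (ih ξ).2) η
      rwa [stp_const] at this
    have h3 : 0 ≤ 1 - ind T η := by linarith [ind_le_one T η]
    have h4 : 1 - ind T η ≤ 1 := by linarith [ind_nonneg T η]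
    constructor
    · nlinarith
    · positivity

theorem stattail_pow {r l : ℕ → ℝ} (hA : Adm N r l) {k : ℕ} (S : Finset ℕ) (T : Set (Cfg N))
    (n : ℕ) {a : ℝ} (ha : 0 ≤ a) (hn : ∀ η : Cfg N, ht η 0 = k → nohit r l S T n η ≤ a) (J : ℕ) :
    ∀ η : Cfg N, ht η 0 = k → nohit r l S T (J * n) η ≤ a ^ J := by
  induction J with
  | zero =>
    intro η _
    rw [Nat.zero_mul, pow_zero]
    exact (stattail_le_one hA S T 0 η).1
  | succ J ih =>
    intro η hη
    have e : (J + 1) * n = J * n + n := by ring
    rw [e, pow_succ]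
    have h1 := stattail_sub hA S T n ha hn (J * n) η hη
    have h2 := mul_le_mul_of_nonneg_left (ih η hη) ha
    linarith

/-- stationarity for several steps -/
theorem stattail_stat {k : ℕ} {r l : ℕ → ℝ} {π : Cfg N → ℝ} (hπ : IsStat N k r l π) (m : ℕ) :
    ∀ f : Cfg N → ℝ, ∑ η, π η * ev r l (fun _ => full N) m f η = ∑ η, π η * f η := by
  induction m with
  | zero => intro f; rfl
  | succ m ih =>
    intro f
    have h1 : ∀ η, ev r l (fun _ => full N) (m + 1) f η =
        stp r l (full N) (ev r l (fun _ => full N) m f) η := fun η => rfl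
    simp only [h1]
    rw [hπ.stat, ih]

theorem stattail_rmin {r l : ℕ → ℝ} (hA : Adm N r l) :
    ∃ c : ℝ, 0 < c ∧ c ≤ 1 ∧ ∀ b, 1 ≤ b → b < N → c ≤ r b := by
  have hpos : ∀ b ∈ full N, 0 < r b := by
    intro b hb
    rw [full, Finset.mem_Ico] at hb
    exact (hA b hb.1 hb.2).1
  have hone : ∀ b ∈ full N, r b ≤ 1 := by
    intro b hb
    rw [full, Finset.mem_Ico] at hb
    exact (hA b hb.1 hb.2).2.1
  refine ⟨∏ b ∈ full N, r b, Finset.prod_pos hpos,
    Finset.prod_le_one (fun b hb => (hpos b hb).le) hone, fun b h1 h2 => ?_⟩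
  have hb : b ∈ full N := by rw [full, Finset.mem_Ico]; exact ⟨h1, h2⟩
  rw [← Finset.mul_prod_erase _ _ hb]
  have h3 : ∏ x ∈ (full N).erase b, r x ≤ 1 :=
    Finset.prod_le_one (fun x hx => (hpos x (Finset.mem_of_mem_erase hx)).le)
      (fun x hx => hone x (Finset.mem_of_mem_erase hx))
  have h4 := hpos b hb
  nlinarith

theorem st_STATTAIL (hRate : ST_RATE) (hCoal : ST_COAL) (hTop : ST_TOPTAIL) (hLoc : ST_LOCHIT) :
    ST_STATTAIL := by
  intro N k r l l' π q1 q2 hN hk hA hA' hP hll hπ hq1 hq hq2
  set f : Cfg N → ℝ := ind (sorted 0 q1 q2 N)ᶜ with hf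
  set bound : ℝ := ∑ z ∈ Finset.Ico 0 q1, ∑ x ∈ Finset.Ico (N - k) N, RR r l' z x +
    ∑ z ∈ Finset.Ico 0 (N - k), ∑ x ∈ Finset.Ico q2 N, RR r l' z x with hbd
  -- `-f` is increasing
  have hinc : Inc k (fun η => -f η) := by
    intro η ξ h1 h2 h3
    have h4 : f ξ ≤ f η := by
      by_cases hη : η ∈ (sorted 0 q1 q2 N : Set (Cfg N))
      · have hξ := stattail_sorted (by omega) η ξ h1 h2 h3 hη
        have : f ξ = 0 := ind_of_not_mem (fun h => h hξ)
        rw [this]
        exact ind_nonneg _ _
      · have : f η = 1 := ind_of_mem hη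
        rw [this]
        exact ind_le_one _ _
    linarith
  have hneg : ∀ (l : ℕ → ℝ) (m : ℕ) (η : Cfg N),
      ev r l (fun _ => full N) m (fun ζ => -f ζ) η = -ev r l (fun _ => full N) m f η := by
    intro l m η
    have h1 : (fun ζ => -f ζ) = fun ζ => (-1) * f ζ := by funext ζ; ring
    rw [h1, ev_smul]
    ring
  obtain ⟨c, hc0, hc1, hc⟩ := stattail_rmin hA'
  set b0 : ℕ := N ^ 2 * ⌈2 * (N : ℝ) / c⌉₊ with hb0
  set δ : ℝ := (c / (4 * ((N : ℝ) + 1))) ^ (N ^ 2) with hδ
  have hx0 : 0 < c / (4 * ((N : ℝ) + 1)) := by positivity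
  have hx1 : c / (4 * ((N : ℝ) + 1)) ≤ 1 := by
    rw [div_le_one (by positivity)]
    have : (0 : ℝ) ≤ N := Nat.cast_nonneg N
    linarith
  have hδ0 : 0 < δ := pow_pos hx0 _
  have hδ1 : δ ≤ 1 := pow_le_one₀ hx0.le hx1
  have hhit : ∀ η : Cfg N, ht η 0 = k → nohit r l' (full N) {top N k} b0 η ≤ 1 - δ := by
    intro η hη
    refine hLoc N k r l' N b0 c η hN hk hA' hη ?_ hc0 hc1 ?_ le_rfl
    · constructor
      · intro i _ hi
        omega
      · intro i hi hi'
        omega
    · intro b h1 h2 _ _
      exact hc b h1 h2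
  have hmain : ∀ J : ℕ, ∑ η, π η * f η ≤ bound + (1 - δ) ^ J := by
    intro J
    rw [← stattail_stat hπ (J * b0) f]
    have h1 : ∀ η : Cfg N, π η * ev r l (fun _ => full N) (J * b0) f η ≤
        π η * (bound + (1 - δ) ^ J) := by
      intro η
      by_cases hη : ht η 0 = k
      · apply mul_le_mul_of_nonneg_left _ (hπ.nonneg η)
        have a1 := hRate N k r l l' (fun _ => full N) (J * b0) _ η hA hA' hll hinc hη
        rw [hneg, hneg] at a1
        have a2 := hCoal N k r l' (J * b0) f η (top N k) (bot N k) hk hA' hη (ht_top_zero hk)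
          (ht_bot_zero hk) (hle_bot hk hη) (hle_bot hk (ht_top_zero hk)) (ind_nonneg _)
          (ind_le_one _)
        have a3 := hTop N r l' (fun _ => full N) (J * b0) 0 q1 (N - k) q2 N (top N k) hA' hP
          (Nat.zero_le _) hq1 hq hq2 le_rfl
          (fun _ => ⟨by simp [full], by simp [full]⟩) (by
            constructor
            · intro i _ hi
              have : ¬ (occ (top N k) i = true) := by
                rw [occ_top]
                omega
              simpa using this
            · intro i hi hi'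
              rw [occ_top]
              omega)
        have a4 := stattail_pow hA' (full N) {top N k} b0 (by linarith) hhit J (bot N k)
          (ht_bot_zero hk)
        unfold pr at a3
        linarith
      · rw [hπ.supp η hη, zero_mul, zero_mul]
    refine (Finset.sum_le_sum fun η _ => h1 η).trans ?_
    rw [← Finset.sum_mul, hπ.total, one_mul]
  have hlim : Filter.Tendsto (fun J : ℕ => bound + (1 - δ) ^ J) Filter.atTop
      (nhds (bound + 0)) :=
    tendsto_const_nhds.add (tendsto_pow_atTop_nhds_zero_of_lt_one (by linarith) (by linarith))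
  rw [add_zero] at hlim
  exact ge_of_tendsto' hlim hmain

end Pool.Agent.Helper98.EX
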